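import Pool.Agent.Lib.MP_63b676_gt.GMain

/-!
# No rotationally symmetric Ricci flow out of a certain complete 3-manifold with `Ric ≥ -1`

There is a smooth function `f > 0` on `ℝ` such that `X = (ℝ × S², dx² + f(x)² g_{S²})` is complete and has
Ricci curvature at least `-1` (so it is an `RCD*(-1,3)` space and a 3-manifold), but no smooth
`O(3)`-invariant Ricci flow `g(t)`, `0 < t < T`, on `ℝ × S²`, complete or not, with
`Ric(g(t)) ≥ -K² g(t)`, comes out of `X`. The definitions (Riemannian metrics on `ℝ × S²`, distances,
Ricci tensor through Christoffel symbols in spherical coordinates, Ricci flow, invariance) are in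
`Pool.Agent.Lib.MP_63b676_gt.GDefs`.

Sketch of the proof. `X` has infinitely many necks, thinner and thinner, and between two of them a long
core where `f = 1`. An invariant metric is `φ² dp² + ψ² g_{S²}`. With `u = exp(-K² t) ψ`,
`v = exp(-K² t) φ` both functions are nonincreasing in `t`, and the convergence of the distances gives
`u → f ∘ ξ` and the convergence of the radial lengths. For an explicit function `F` of one variable the
integral of `F(u) v` between two necks cannot decrease faster than a constant times the distance of
the necks (the flux through the necks vanishes, the terms with `u_s²` have a sign, and `u` is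
nonincreasing); so the bulges between the necks persist for a time that does not depend on the
necks, although nothing is assumed about completeness. Then the minimum of `u²` between two bulges
decreases at least at rate `1`, so it would become negative for a sufficiently thin neck.
-/

namespace Pool.Agent.Results.MP_63b676_gt.NoSymmetricFlow

open RFO Set
open scoped ContDiff

theorem result : ∃ f : ℝ → ℝ, ContDiff ℝ ∞ f ∧ (∀ x, 0 < f x) ∧
    RicLower (wform (fun _ => 1) f) 1 ∧ CompleteG (wform (fun _ => 1) f) ∧
    ∀ (T K : ℝ) (g : ℝ → Form) (Φ : V → V), 0 < T → IsRicciFlowG T g →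
      (∀ t ∈ Ioo 0 T, Invariant (g t)) → (∀ t ∈ Ioo 0 T, RicLower (g t) (K ^ 2)) → IsEquiv Φ →
      ¬ ComesOutG (wform (fun _ => 1) f) Φ g :=
  gmain

end Pool.Agent.Results.MP_63b676_gt.NoSymmetricFlow
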